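import Mathlib
import Pool.Agent.V11310.CL.Open

set_option autoImplicit false

/-!
# The SHGH conjecture for the closure of the known classes under collisions

`Reached N0 d w` (`Pool.Agent.V11310.CL.Reached`): the multiset of the multiplicities `w` belongs, in
degree `d`, to the smallest class of multisets of multiplicities with one of the two signs (no curves,
independent conditions) which contains the comparable, the large and the good classes (`Base`) and is
closed under collisions (a point of multiplicity `μ` may be replaced by points `M'` if `M'` is in the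
class in degree `μ - 1`), quadratic transformations, doubling (four points of multiplicity `m` for one
point of the multiplicities `2 m` and `2 m + 1`), adding or removing points and changing the degree.

Every class which is reached, or which finitely many reflections carry to a standard class which is
reached, has `h⁰ = max (0, χ)` at general points. For every class `D` and general points at least one
of the following holds: `h⁰ (D) = max (0, χ)`; some `(-1)`-curve `C` has `C D ≤ -2`; or `D`, after the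
removal of disjoint `(-1)`-curves, each taken once, and finitely many quadratic transformations, is a
standard class with the same `h⁰`, different from `max (0, χ)`, which is not reached.
-/

namespace Pool.Agent.Results.MP_70e04f_ag.CollisionClosure

open MvPolynomial Pool.Agent.TH167.SHDefs
open Pool.Agent.Y536.SH (Standard)
open Pool.Agent.V11310.CL

/-- `h⁰ (D)` for the class `D = d H - ∑ w i E i`. -/
noncomputable def hZero {n : ℕ} (P : Fin n → Fin 2 → ℂ) (d : ℕ) (w : Fin n → ℕ) : ℤ :=
  (Module.finrank ℂ ↥(sys P d w) : ℤ)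

/-- The Euler characteristic. -/
def chi {n : ℕ} (d : ℕ) (w : Fin n → ℕ) : ℤ :=
  ((d + 2).choose 2 : ℤ) - ∑ i, ((w i + 1).choose 2 : ℤ)

/-- The property holds for all `n`-tuples of points outside some hypersurface. -/
def ForGeneral {n : ℕ} (p : (Fin n → Fin 2 → ℂ) → Prop) : Prop :=
  ∃ F : MvPolynomial (Fin n × Fin 2) ℂ, F ≠ 0 ∧ ∀ P : Fin n → Fin 2 → ℂ,
    eval (fun ij : Fin n × Fin 2 => P ij.1 ij.2) F ≠ 0 → p P

theorem hZero_of {n : ℕ} {P : Fin n → Fin 2 → ℂ} {d : ℕ} {w : Fin n → ℕ}
    (h : Pool.Agent.H932R3.ExpDim ℂ w P d) : hZero P d w = max 0 (chi d w) := by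
  have h1 : Module.finrank ℂ ↥(sys P d w) =
      Nat.choose (d + 2) 2 - ∑ i, Nat.choose (w i + 1) 2 := h
  have h2 : ∑ i, ((w i + 1).choose 2 : ℤ) = ((∑ i, Nat.choose (w i + 1) 2 : ℕ) : ℤ) := by
    push_cast
    rfl
  unfold hZero chi
  rw [h1, h2]
  omega

theorem special_of_ne {n : ℕ} {P : Fin n → Fin 2 → ℂ} {d : ℕ} {w : Fin n → ℕ} :
    hZero P d w ≠ max 0 (chi d w) ↔ Pool.Agent.TH167.SH.Special P d w := by
  unfold hZero Pool.Agent.TH167.SH.Special
  rw [Pool.Agent.TH167.SH.sys_eq]
  exact Iff.rfl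

theorem result : ∃ N0 : ℕ, ∀ n : ℕ, 4 ≤ n → ∀ (d : ℕ) (w : Fin n → ℕ),
    (Base N0 d w → Reached N0 d w) ∧ ForGeneral fun P =>
    (Reached N0 d w → hZero P d w = max 0 (chi d w)) ∧
    ((∃ (d' : ℕ) (w' : Fin n → ℕ), Carries d w d' w' ∧ Standard d' w' ∧ Reached N0 d' w') →
      hZero P d w = max 0 (chi d w)) ∧
    (hZero P d w = max 0 (chi d w) ∨
      (∃ (G : MvPolynomial (Fin 3) ℂ) (e : ℕ) (u : Fin n → ℕ), MinusOne P G e u ∧
        inter d w e u ≤ -2) ∨
      ∃ (d'' : ℕ) (w'' : Fin n → ℕ) (k : ℕ) (G : Fin k → MvPolynomial (Fin 3) ℂ)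
        (e : Fin k → ℕ) (u : Fin k → Fin n → ℕ) (d' : ℕ) (w' : Fin n → ℕ),
        Decomp P d w d'' w'' G e u (fun _ => 1) ∧
        Relation.ReflTransGen Quadratic (d'', w'') (d', w') ∧ Standard d' w' ∧
        hZero P d' w' = hZero P d w ∧ hZero P d' w' ≠ max 0 (chi d' w') ∧
        ¬ Reached N0 d' w') := by
  obtain ⟨N0, hN0⟩ := Pool.Agent.Y939.NC.reg_exp
  refine ⟨N0, fun n hn d w => ⟨reached_of_base, ?_⟩⟩
  obtain ⟨F1, hF1, hF1'⟩ : ForGeneral fun P : Fin n → Fin 2 → ℂ =>
      Covered N0 d w → hZero P d w = max 0 (chi d w) := by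
    by_cases h : Covered N0 d w
    · obtain ⟨F, hF, hF'⟩ := covered_open hN0 hn h
      exact ⟨F, hF, fun P hP _ => hZero_of (hF' P hP)⟩
    · exact ⟨1, one_ne_zero, fun P _ h' => absurd h' h⟩
  obtain ⟨r, rfl⟩ : ∃ r, n = r + 4 := ⟨n - 4, by omega⟩
  obtain ⟨F, hF, hF'⟩ := Pool.Agent.Y536.SH.hh_full
    (Q := fun d' w' => Reached N0 d' w')
    (fun hP d1 w1 hr hG => reached_exp hN0 hG hP) d w
  refine ⟨F1 * F.map (algebraMap ℚ ℂ),
    mul_ne_zero hF1 (Pool.Agent.TH167.SH.map_ne hF), fun P hP => ?_⟩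
  rw [map_mul] at hP
  have hP1 := left_ne_zero_of_mul hP
  refine ⟨fun h => hF1' P hP1 (Or.inl h), fun h => hF1' P hP1 (Or.inr h), ?_⟩
  have hP2 := right_ne_zero_of_mul hP
  rw [Pool.Agent.TH167.SH.evP_eval] at hP2
  by_cases hs : hZero P d w = max 0 (chi d w)
  · exact Or.inl hs
  · right
    have hsp := special_of_ne.1 hs
    rcases hF' ℂ P hP2 hsp with h | ⟨d', w', k, C, e, u, N, d1, w1, h1, h2, h3, h4, h5, h6⟩
    · left
      exact Pool.Agent.TH167.SH.mspecial_curve ((Pool.Agent.TH167.SH.mspecial_conv P d w).2 h)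
    · by_cases hN : ∃ a, 2 ≤ N a
      · left
        obtain ⟨a, ha⟩ := hN
        refine ⟨C a, e a, u a, Pool.Agent.TH167.SH.minusOne_iff.2 (h1.exc a), ?_⟩
        rw [Pool.Agent.TH167.SH.inter_eq, h1.neg a]
        omega
      · right
        push Not at hN
        have hN1 : N = fun _ => 1 := by
          funext a
          have := h1.pos a
          have := hN a
          omega
        subst hN1
        refine ⟨d', w', k, C, e, u, d1, w1, Pool.Agent.TH167.SH.decomp_iff.2 h1,
          Pool.Agent.TH167.SH.chain_conv h2, h3, ?_, special_of_ne.2 h4, h6⟩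
        unfold hZero
        rw [Pool.Agent.TH167.SH.sys_eq, Pool.Agent.TH167.SH.sys_eq, h5]

end Pool.Agent.Results.MP_70e04f_ag.CollisionClosure
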