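import Mathlib
import Pool.Agent.V11263.SH.Comp

set_option autoImplicit false

/-!
# The SHGH conjecture for all classes whose standard form is comparable with a regular vector

A vector `v` of multiplicities on `k` points is regular in degree `d` (`RegularAt`) if it is one of
the vectors `Regular` of `Pool.Agent.Y939.NC`, or `k ≥ 10`, all its entries are `m` or `m + 1`, and
`m + 1 ≤ k - 6 √k + 11` or `k` is a square or `2 d + 3 - √k - 2 (∑ v) / √k` is outside an interval
around zero of length less than two, or `k ≥ 10` and `(d; v)` is in one of the windows `Window`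
(arbitrary entries).

A class `(d; w)` is `Comparable` if, for a vector `v` regular in degree `d` on some `k` of the points,
either `w ≥ v` there and `χ (d; v) ≤ 0` (no condition at the other points), or `w ≤ v` there,
`w ≤ 1` at the other points, and `χ (d; v) ≥ 0` or `w = v` there.

Every class in the Weyl group orbit of a standard class which is comparable (or large, or good, as in
the earlier result `LargeForms`) has `h⁰ = max (0, χ)` at general points. For every class `D` and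
general points at least one of the following holds: `h⁰ (D) = max (0, χ)`; some `(-1)`-curve `C` has
`C D ≤ -2`; or `D`, after the removal of disjoint `(-1)`-curves, each taken once, and finitely many
quadratic transformations, is a standard class with the same `h⁰`, different from `max (0, χ)`, which
is neither large nor good nor comparable.
-/

namespace Pool.Agent.Results.MP_70e04f_ag.ComparableForms

open MvPolynomial Pool.Agent.TH167.SHDefs
open Pool.Agent.Y536.SH (Standard)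
open Pool.Agent.V11263.SH (Comparable Known)

/-- `h⁰ (D)` for the class `D = d H - ∑ w i E i`. -/
noncomputable def hZero {n : ℕ} (P : Fin n → Fin 2 → ℂ) (d : ℕ) (w : Fin n → ℕ) : ℤ :=
  (Module.finrank ℂ ↥(sys P d w) : ℤ)

/-- The Euler characteristic. -/
def chi {n : ℕ} (d : ℕ) (w : Fin n → ℕ) : ℤ :=
  ((d + 2).choose 2 : ℤ) - ∑ i, ((w i + 1).choose 2 : ℤ)

/-- The property holds for all `n`-tuples of points outside some hypersurface. -/
def ForGeneral {n : ℕ} (p : (Fin n → Fin 2 → ℂ) → Prop) : Prop :=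
  ∃ F : MvPolynomial (Fin n × Fin 2) ℂ, F ≠ 0 ∧ ∀ P : Fin n → Fin 2 → ℂ,
    eval (fun ij : Fin n × Fin 2 => P ij.1 ij.2) F ≠ 0 → p P

/-- The reflection of the class `a = (d; w)`, `d H - ∑ w l E l`, in the class
`H - E (i 0) - E (i 1) - E (i 2)`: with `δ = d - w (i 0) - w (i 1) - w (i 2)`, the numbers
`d`, `w (i 0)`, `w (i 1)`, `w (i 2)` are increased by `δ`. -/
def reflect {n : ℕ} (i : Fin 3 → Fin n) (a : ℤ × (Fin n → ℤ)) : ℤ × (Fin n → ℤ) :=
  (a.1 + (a.1 - a.2 (i 0) - a.2 (i 1) - a.2 (i 2)),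
    fun l => a.2 l + if l = i 0 ∨ l = i 1 ∨ l = i 2 then a.1 - a.2 (i 0) - a.2 (i 1) - a.2 (i 2)
      else 0)

/-- Finitely many reflections carry `(d; w)` to `(d'; w')`. -/
def Carries {n : ℕ} (d : ℕ) (w : Fin n → ℕ) (d' : ℕ) (w' : Fin n → ℕ) : Prop :=
  Relation.ReflTransGen
    (fun a b : ℤ × (Fin n → ℤ) => ∃ i : Fin 3 → Fin n, Function.Injective i ∧ b = reflect i a)
    ((d : ℤ), fun l => (w l : ℤ)) ((d' : ℤ), fun l => (w' l : ℤ))

theorem hZero_of {n : ℕ} {P : Fin n → Fin 2 → ℂ} {d : ℕ} {w : Fin n → ℕ}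
    (h : Pool.Agent.H932R3.ExpDim ℂ w P d) : hZero P d w = max 0 (chi d w) := by
  have h1 : Module.finrank ℂ ↥(sys P d w) =
      Nat.choose (d + 2) 2 - ∑ i, Nat.choose (w i + 1) 2 := h
  have h2 : ∑ i, ((w i + 1).choose 2 : ℤ) = ((∑ i, Nat.choose (w i + 1) 2 : ℕ) : ℤ) := by
    push_cast
    rfl
  unfold hZero chi
  rw [h1, h2]
  omega

theorem special_of_ne {n : ℕ} {P : Fin n → Fin 2 → ℂ} {d : ℕ} {w : Fin n → ℕ} :
    hZero P d w ≠ max 0 (chi d w) ↔ Pool.Agent.TH167.SH.Special P d w := by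
  unfold hZero Pool.Agent.TH167.SH.Special
  rw [Pool.Agent.TH167.SH.sys_eq]
  exact Iff.rfl

theorem result : ∃ N0 : ℕ, ∀ n : ℕ, 4 ≤ n → ∀ (d : ℕ) (w : Fin n → ℕ), ForGeneral fun P =>
    (Comparable N0 d w → hZero P d w = max 0 (chi d w)) ∧
    ((∃ (d' : ℕ) (w' : Fin n → ℕ), Carries d w d' w' ∧ Standard d' w' ∧ Known N0 d' w') →
      hZero P d w = max 0 (chi d w)) ∧
    (hZero P d w = max 0 (chi d w) ∨
      (∃ (G : MvPolynomial (Fin 3) ℂ) (e : ℕ) (u : Fin n → ℕ), MinusOne P G e u ∧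
        inter d w e u ≤ -2) ∨
      ∃ (d'' : ℕ) (w'' : Fin n → ℕ) (k : ℕ) (G : Fin k → MvPolynomial (Fin 3) ℂ)
        (e : Fin k → ℕ) (u : Fin k → Fin n → ℕ) (d' : ℕ) (w' : Fin n → ℕ),
        Decomp P d w d'' w'' G e u (fun _ => 1) ∧
        Relation.ReflTransGen Quadratic (d'', w'') (d', w') ∧ Standard d' w' ∧
        hZero P d' w' = hZero P d w ∧ hZero P d' w' ≠ max 0 (chi d' w') ∧
        ¬ Known N0 d' w') := by
  obtain ⟨N0, hN0⟩ := Pool.Agent.Y939.NC.reg_exp
  refine ⟨N0, fun n hn d w => ?_⟩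
  obtain ⟨F0, hF0, hF0'⟩ : ForGeneral fun P : Fin n → Fin 2 → ℂ =>
      Comparable N0 d w → hZero P d w = max 0 (chi d w) := by
    by_cases h : Comparable N0 d w
    · obtain ⟨F, hF, hF'⟩ := Pool.Agent.TH442.NF.to_open (d := d) (w := w)
        fun {_ _ _ P} hP => Pool.Agent.V11263.SH.comparable_exp hN0 h hP
      refine ⟨F.map (algebraMap ℚ ℂ), Pool.Agent.H932R3.map_ne_zero_of hF, fun P hP _ => ?_⟩
      rw [MvPolynomial.eval_map] at hP
      exact hZero_of (hF' (L := ℂ) P hP)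
    · exact ⟨1, one_ne_zero, fun P _ h' => absurd h' h⟩
  obtain ⟨F1, hF1, hF1'⟩ : ForGeneral fun P : Fin n → Fin 2 → ℂ =>
      (∃ (d' : ℕ) (w' : Fin n → ℕ), Carries d w d' w' ∧ Standard d' w' ∧ Known N0 d' w') →
        hZero P d w = max 0 (chi d w) := by
    by_cases h : ∃ (d' : ℕ) (w' : Fin n → ℕ), Carries d w d' w' ∧ Standard d' w' ∧ Known N0 d' w'
    · obtain ⟨d', w', hc, hs, hG⟩ := h
      obtain ⟨F, hF, hF'⟩ := Pool.Agent.TH442.NF.to_open (d := d) (w := w)
        fun {_ _ _ P} hP => Pool.Agent.TH442.NF.up_enef hP hc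
          (Pool.Agent.TH442.NF.enef_of_std hn P hs) (Pool.Agent.V11263.SH.known_exp hN0 hn hs hG hP)
      refine ⟨F.map (algebraMap ℚ ℂ), Pool.Agent.H932R3.map_ne_zero_of hF, fun P hP _ => ?_⟩
      rw [MvPolynomial.eval_map] at hP
      exact hZero_of (hF' (L := ℂ) P hP)
    · exact ⟨1, one_ne_zero, fun P _ h' => absurd h' h⟩
  obtain ⟨r, rfl⟩ : ∃ r, n = r + 4 := ⟨n - 4, by omega⟩
  obtain ⟨F, hF, hF'⟩ := Pool.Agent.Y536.SH.hh_full
    (Q := fun d' w' => Known N0 d' w')
    (fun hP d1 w1 hr hG => Pool.Agent.V11263.SH.known_exp hN0 hn hr hG hP) d w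
  refine ⟨F0 * (F1 * F.map (algebraMap ℚ ℂ)),
    mul_ne_zero hF0 (mul_ne_zero hF1 (Pool.Agent.TH167.SH.map_ne hF)), fun P hP => ?_⟩
  rw [map_mul, map_mul] at hP
  have hP0 := left_ne_zero_of_mul hP
  have hP12 := right_ne_zero_of_mul hP
  refine ⟨hF0' P hP0, hF1' P (left_ne_zero_of_mul hP12), ?_⟩
  have hP2 := right_ne_zero_of_mul hP12
  rw [Pool.Agent.TH167.SH.evP_eval] at hP2
  by_cases hs : hZero P d w = max 0 (chi d w)
  · exact Or.inl hs
  · right
    have hsp := special_of_ne.1 hs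
    rcases hF' ℂ P hP2 hsp with h | ⟨d', w', k, C, e, u, N, d1, w1, h1, h2, h3, h4, h5, h6⟩
    · left
      exact Pool.Agent.TH167.SH.mspecial_curve ((Pool.Agent.TH167.SH.mspecial_conv P d w).2 h)
    · by_cases hN : ∃ a, 2 ≤ N a
      · left
        obtain ⟨a, ha⟩ := hN
        refine ⟨C a, e a, u a, Pool.Agent.TH167.SH.minusOne_iff.2 (h1.exc a), ?_⟩
        rw [Pool.Agent.TH167.SH.inter_eq, h1.neg a]
        omega
      · right
        push Not at hN
        have hN1 : N = fun _ => 1 := by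
          funext a
          have := h1.pos a
          have := hN a
          omega
        subst hN1
        refine ⟨d', w', k, C, e, u, d1, w1, Pool.Agent.TH167.SH.decomp_iff.2 h1,
          Pool.Agent.TH167.SH.chain_conv h2, h3, ?_, special_of_ne.2 h4, h6⟩
        unfold hZero
        rw [Pool.Agent.TH167.SH.sys_eq, Pool.Agent.TH167.SH.sys_eq, h5]

end Pool.Agent.Results.MP_70e04f_ag.ComparableForms
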